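import Pool.Agent.H380.AG.Stm

set_option autoImplicit false

open MeasureTheory Metric Set Filter Topology
open scoped ENNReal RealInnerProductSpace

namespace Pool.Agent.H947.AG

open Pool.Agent.W778.AG Pool.Agent.H380.AG

lemma inner_sum {n : ℕ} (x y : En n) : ⟪x, y⟫ = ∑ i, x i * y i := by
  rw [PiLp.inner_apply]
  refine Finset.sum_congr rfl fun i _ => ?_
  simp [mul_comm]

/-- real part -/
noncomputable def rp {n : ℕ} (z : Fin n → ℂ) : En n := WithLp.toLp 2 fun i => (z i).re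

/-- imaginary part -/
noncomputable def ip {n : ℕ} (z : Fin n → ℂ) : En n := WithLp.toLp 2 fun i => (z i).im

lemma cd_eq {n : ℕ} (y : En n) (z : Fin n → ℂ) :
    cd y z = ((⟪y, rp z⟫ : ℝ) + Complex.I * (⟪y, ip z⟫ : ℝ) : ℂ) := by
  rw [inner_sum, inner_sum]
  unfold cd
  push_cast
  rw [Finset.mul_sum, ← Finset.sum_add_distrib]
  refine Finset.sum_congr rfl fun i _ => ?_
  change (y i : ℂ) * z i = (y i : ℂ) * ((z i).re : ℂ) + Complex.I * ((y i : ℂ) * ((z i).im : ℂ))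
  conv_lhs => rw [← Complex.re_add_im (z i)]
  ring

lemma qf_eq {n : ℕ} (z : Fin n → ℂ) :
    qf z = ((‖rp z‖ ^ 2 - ‖ip z‖ ^ 2 : ℝ) : ℂ) + 2 * Complex.I * (⟪rp z, ip z⟫ : ℝ) := by
  rw [← real_inner_self_eq_norm_sq, ← real_inner_self_eq_norm_sq, inner_sum, inner_sum, inner_sum]
  unfold qf
  push_cast
  rw [Finset.mul_sum, ← Finset.sum_sub_distrib, ← Finset.sum_add_distrib]
  refine Finset.sum_congr rfl fun i _ => ?_
  change z i ^ 2 = ((z i).re : ℂ) * ((z i).re : ℂ) - ((z i).im : ℂ) * ((z i).im : ℂ) +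
    2 * Complex.I * (((z i).re : ℂ) * ((z i).im : ℂ))
  conv_lhs => rw [← Complex.re_add_im (z i)]
  have h := Complex.I_sq
  linear_combination ((z i).im : ℂ) ^ 2 * h

theorem t_CM (h1 : S_CXM) (h2 : S_MOM) : S_CM := by
  intro n hn σ hσ z j
  have h3 := h1 n σ (rp z) (ip z) (mom (n + 1)) hσ.1 (fun t j => hσ.2 j _)
    (h2 (n + 1) (by omega)).1 j
  simp only [← cd_eq, ← qf_eq] at h3
  exact h3

end Pool.Agent.H947.AG
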